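import Pool.Agent.W811.Stu.Stmts3

/-! Subtasks SD-HYP and SD-ELL (owner helper811). -/

set_option autoImplicit false

namespace Pool.Agent.W216.Stu.Hyp

open Pool.Agent.W811.Stu

/-- the sequence `t_k` -/
def tt (p : P3) (k : ℕ) : ℝ := (stepR^[k] p).z

theorem tt_rec (p : P3) (k : ℕ) : tt p (k + 2) = 2 * p.y * tt p (k + 1) - tt p k := by
  unfold tt
  rw [← iter_x (k + 1), Function.iterate_succ_apply']
  simp only [stepR]
  rw [iter_y, iter_x, Function.iterate_succ_apply']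
  ring

theorem tt_energy {δ : ℝ} {p : P3} (h : OnS δ p) (k : ℕ) :
    tt p k ^ 2 + tt p (k + 1) ^ 2 - 2 * p.y * tt p k * tt p (k + 1) = 1 + δ ^ 2 - p.y ^ 2 := by
  have h1 := h.iter k
  unfold OnS at h1
  rw [iter_y, iter_x] at h1
  unfold tt
  linear_combination h1

/-- growth -/
theorem grow (y : ℝ) (t : ℕ → ℝ) (h : ∀ i, t (i + 2) = 2 * y * t (i + 1) - t i)
    (hy : 1 < |y|) (i : ℕ) (h1 : |t i| < |t (i + 1)|) : |t (i + 1)| < |t (i + 2)| := by
  rw [h]
  have h2 : |2 * y * t (i + 1)| - |t i| ≤ |2 * y * t (i + 1) - t i| := abs_sub_abs_le_abs_sub _ _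
  rw [abs_mul, abs_mul, abs_two] at h2
  have h3 : 0 < |t (i + 1)| := lt_of_le_of_lt (abs_nonneg _) h1
  nlinarith

theorem grow' (y : ℝ) (t : ℕ → ℝ) (h : ∀ i, t (i + 2) = 2 * y * t (i + 1) - t i)
    (hy : 1 < |y|) (i : ℕ) (h1 : |t i| < |t (i + 1)|) (j : ℕ) :
    |t (i + j)| < |t (i + j + 1)| ∧ |t (i + 1)| ≤ |t (i + j + 1)| := by
  induction j with
  | zero => exact ⟨h1, le_refl _⟩
  | succ j ih =>
    have := grow y t h hy (i + j) ih.1
    exact ⟨this, ih.2.trans this.le⟩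

/-- the sequence after removing the sign -/
theorem lin1 (y Y ε E : ℝ) (r : ℕ → ℝ) (h : ∀ i, r (i + 2) = 2 * y * r (i + 1) - r i)
    (hy : 1 < y) (hY : y ≤ Y) (hε : 0 ≤ ε) (hE : 0 < E) (hεE : ε ^ 2 * Y ≤ E)
    (he : ∀ i, r i ^ 2 + r (i + 1) ^ 2 - 2 * y * r i * r (i + 1) = E)
    (h0 : 0 < r 1 - r 0) (k : ℕ) : r 0 + k * ε ≤ r k := by
  have hpos : ∀ i, 0 < r (i + 1) - r i := by
    intro i
    induction i with
    | zero => exact h0
    | succ i ih =>
      have h1 : (r (i + 1) - r i) * (r (i + 2) - r (i + 1)) = E + 2 * (y - 1) * r (i + 1) ^ 2 := by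
        rw [h, ← he i]
        ring
      have h2 : 0 < (r (i + 1) - r i) * (r (i + 2) - r (i + 1)) := by
        rw [h1]
        have : 0 ≤ 2 * (y - 1) * r (i + 1) ^ 2 := by
          apply mul_nonneg _ (sq_nonneg _)
          linarith
        linarith
      exact (mul_pos_iff_of_pos_left ih).1 h2
  have hge : ∀ i, ε ≤ r (i + 1) - r i := by
    intro i
    have h1 : ε ^ 2 ≤ (r (i + 1) - r i) ^ 2 := by
      have h2 : E ≤ y * (r (i + 1) - r i) ^ 2 := by
        by_cases hp : 0 ≤ r i * r (i + 1)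
        · have h3 : E ≤ (r (i + 1) - r i) ^ 2 := by
            have h4 := he i
            nlinarith [mul_nonneg (by linarith : (0 : ℝ) ≤ y - 1) hp]
          nlinarith [sq_nonneg (r (i + 1) - r i)]
        · have h4 := he i
          nlinarith [sq_nonneg (r i), sq_nonneg (r (i + 1)),
            mul_nonneg (by linarith : (0 : ℝ) ≤ y - 1) (sq_nonneg (r i)),
            mul_nonneg (by linarith : (0 : ℝ) ≤ y - 1) (sq_nonneg (r (i + 1)))]
      have h3 : ε ^ 2 * Y ≤ (r (i + 1) - r i) ^ 2 * Y := by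
        nlinarith [sq_nonneg (r (i + 1) - r i)]
      exact le_of_mul_le_mul_right h3 (by linarith)
    exact le_of_sq_le_sq h1 (hpos i).le
  induction k with
  | zero => simp
  | succ k ih =>
    have := hge k
    push_cast
    linarith

theorem lin2 (y Y ε E κ : ℝ) (r : ℕ → ℝ) (h : ∀ i, r (i + 2) = 2 * y * r (i + 1) - r i)
    (hy : 1 < y) (hY : y ≤ Y) (hε : 0 ≤ ε) (hE : 0 < E) (hεE : ε ^ 2 * Y ≤ E)
    (he : ∀ i, r i ^ 2 + r (i + 1) ^ 2 - 2 * y * r i * r (i + 1) = E) (k : ℕ)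
    (hr0 : |r 0| ≤ κ) (hrk : |r k| ≤ κ) : k * ε ≤ 2 * κ := by
  have h0 := abs_le.1 hr0
  have hk := abs_le.1 hrk
  rcases lt_trichotomy (r 1 - r 0) 0 with hneg | hz | hpos
  · have := lin1 y Y ε E (fun i => - r i) (fun i => by rw [h]; ring) hy hY hε hE hεE
      (fun i => by rw [← he i]; ring) (by show 0 < - r 1 - - r 0; linarith) k
    linarith
  · exfalso
    have h1 := he 0
    have h2 : r 1 = r 0 := by linarith
    rw [show 0 + 1 = 1 from rfl, h2] at h1
    nlinarith [mul_nonneg (by linarith : (0 : ℝ) ≤ y - 1) (sq_nonneg (r 0))]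
  · have := lin1 y Y ε E r h hy hY hε hE hεE he hpos k
    linarith

theorem hyp : THyp := by
  intro δ κ y0 hδ hκ hy0
  -- the constants
  by_cases h1 : y0 ≤ 1
  · refine ⟨0, fun p k hS hy hz hzk => ⟨?_, fun _ => h1.trans hy.le⟩⟩
    intro i hi
    by_contra hcon
    push Not at hcon
    classical
    have hex : ∃ i, κ < |tt p i| := ⟨i, hcon⟩
    have hm := Nat.find_spec hex
    have hmin := fun j => Nat.find_min (H := hex) (m := j)
    set m := Nat.find hex with hmd
    have hmi : m ≤ i := Nat.find_min' hex hcon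
    have hm0 : m ≠ 0 := by
      intro h0
      rw [h0] at hm
      exact absurd hz (not_le.2 hm)
    obtain ⟨m', hm'⟩ := Nat.exists_eq_succ_of_ne_zero hm0
    have h2 : |tt p m'| ≤ κ := not_lt.1 (hmin m' (by omega))
    rw [hm'] at hm
    obtain ⟨j, hj⟩ : ∃ j, k = m' + j + 1 := ⟨k - m' - 1, by omega⟩
    have h3 := (grow' p.y (tt p) (tt_rec p) hy m' (h2.trans_lt hm) j).2
    rw [hj] at hzk
    exact absurd hzk (not_le.2 (lt_of_lt_of_le hm h3))
  · push Not at h1
    have hc := cc_sq δ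
    have hcp := cc_pos δ
    set ε1 : ℝ := cc δ ^ 2 - y0 ^ 2 with hε1
    have hε1p : 0 < ε1 := by
      rw [hε1]
      nlinarith
    set ε : ℝ := Real.sqrt (ε1 / y0) with hε
    have hεp : 0 < ε := Real.sqrt_pos.2 (by positivity)
    obtain ⟨K, hK⟩ := exists_nat_gt (2 * κ / ε)
    refine ⟨K, fun p k hS hy hz hzk => ⟨?_, ?_⟩⟩
    · intro i hi
      by_contra hcon
      push Not at hcon
      classical
      have hex : ∃ i, κ < |tt p i| := ⟨i, hcon⟩
      have hm := Nat.find_spec hex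
      have hmin := fun j => Nat.find_min (H := hex) (m := j)
      set m := Nat.find hex with hmd
      have hmi : m ≤ i := Nat.find_min' hex hcon
      have hm0 : m ≠ 0 := by
        intro h0
        rw [h0] at hm
        exact absurd hz (not_le.2 hm)
      obtain ⟨m', hm'⟩ := Nat.exists_eq_succ_of_ne_zero hm0
      have h2 : |tt p m'| ≤ κ := not_lt.1 (hmin m' (by omega))
      rw [hm'] at hm
      obtain ⟨j, hj⟩ : ∃ j, k = m' + j + 1 := ⟨k - m' - 1, by omega⟩
      have h3 := (grow' p.y (tt p) (tt_rec p) hy m' (h2.trans_lt hm) j).2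
      rw [hj] at hzk
      exact absurd hzk (not_le.2 (lt_of_lt_of_le hm h3))
    · intro hKk
      by_contra hcon
      push Not at hcon
      have hE : 0 < 1 + δ ^ 2 - p.y ^ 2 := by
        rw [← sq_abs p.y, ← hc]
        nlinarith [abs_nonneg p.y]
      have hεE : ε ^ 2 * y0 ≤ 1 + δ ^ 2 - p.y ^ 2 := by
        rw [hε, Real.sq_sqrt (by positivity), div_mul_cancel₀ _ (by linarith)]
        rw [hε1, ← hc, ← sq_abs p.y]
        nlinarith [abs_nonneg p.y]
      have key : k * ε ≤ 2 * κ := by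
        rcases le_or_gt 0 p.y with hp | hp
        · rw [abs_of_nonneg hp] at hy hcon
          exact lin2 p.y y0 ε _ κ (tt p) (tt_rec p) hy hcon.le hεp.le hE hεE (tt_energy hS) k hz hzk
        · rw [abs_of_neg hp] at hy hcon
          have hs : ∀ i : ℕ, |(-1 : ℝ) ^ i| = 1 := fun i => by
            rw [abs_pow, abs_neg, abs_one, one_pow]
          refine lin2 (-p.y) y0 ε _ κ (fun i => (-1) ^ i * tt p i) ?_ hy hcon.le hεp.le hE hεE
            ?_ k ?_ ?_
          · intro i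
            show (-1) ^ (i + 2) * tt p (i + 2)
              = 2 * (-p.y) * ((-1) ^ (i + 1) * tt p (i + 1)) - (-1) ^ i * tt p i
            rw [tt_rec]
            ring
          · intro i
            show ((-1) ^ i * tt p i) ^ 2 + ((-1) ^ (i + 1) * tt p (i + 1)) ^ 2
              - 2 * (-p.y) * ((-1) ^ i * tt p i) * ((-1) ^ (i + 1) * tt p (i + 1)) = _
            rw [← tt_energy hS i]
            have h2 : ((-1 : ℝ) ^ i) ^ 2 = 1 := by
              rw [← pow_mul, mul_comm, pow_mul]; simp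
            rw [pow_succ]
            linear_combination (tt p i ^ 2 + tt p (i + 1) ^ 2 - 2 * p.y * tt p i * tt p (i + 1)) * h2
          · show |(-1) ^ 0 * tt p 0| ≤ κ
            rw [abs_mul, hs, one_mul]
            exact hz
          · show |(-1) ^ k * tt p k| ≤ κ
            rw [abs_mul, hs, one_mul]
            exact hzk
      rw [div_lt_iff₀ hεp] at hK
      have : (K : ℝ) ≤ k := by exact_mod_cast hKk
      nlinarith

/-! ### elliptic runs -/

theorem t_bound {δ : ℝ} {p : P3} (hS : OnS δ p) (hy : |p.y| ≤ 1) (C : ℝ) (hz : |p.z| ≤ C)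
    (i : ℕ) : |tt p i| ≤ C + cc δ * i := by
  induction i with
  | zero =>
    simpa [tt] using hz
  | succ i ih =>
    have h1 := tt_energy hS i
    have hc := cc_sq δ
    have hcp := cc_pos δ
    have hy2 : p.y ^ 2 ≤ 1 := by
      rw [← sq_abs]
      nlinarith [abs_nonneg p.y]
    have h2 : (tt p (i + 1) - p.y * tt p i) ^ 2 ≤ cc δ ^ 2 := by
      nlinarith [mul_nonneg (by linarith : (0 : ℝ) ≤ 1 - p.y ^ 2) (sq_nonneg (tt p i)),
        sq_nonneg p.y]
    have h3 : |tt p (i + 1) - p.y * tt p i| ≤ cc δ := abs_le_of_sq_le_sq h2 hcp.le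
    have h4 : |tt p (i + 1)| ≤ |tt p (i + 1) - p.y * tt p i| + |p.y * tt p i| := by
      have := abs_add_le (tt p (i + 1) - p.y * tt p i) (p.y * tt p i)
      rwa [sub_add_cancel] at this
    have h5 : |p.y * tt p i| ≤ |tt p i| := by
      rw [abs_mul]
      nlinarith [abs_nonneg (tt p i)]
    push_cast
    linarith

/-- first component of the tangent vectors -/
def ss (p u : P3) (k : ℕ) : ℝ := (dRk k p u).z

theorem dRk_y (p u : P3) (k : ℕ) : (dRk k p u).y = u.y := by
  induction k with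
  | zero => rfl
  | succ k ih =>
    rw [← ih]
    rfl

theorem dRk_x (p u : P3) (k : ℕ) : (dRk k p u).x = ss p u (k + 1) := rfl

theorem ss_rec (p u : P3) (k : ℕ) :
    ss p u (k + 2) = 2 * p.y * ss p u (k + 1) - ss p u k + 2 * tt p (k + 1) * u.y := by
  have h : ss p u (k + 2) = (dR (stepR^[k] p) (dRk k p u)).x := rfl
  rw [h, dR, iter_y, iter_x, dRk_y, dRk_x]
  show 2 * p.y * ss p u (k + 1) + 2 * tt p (k + 1) * u.y - ss p u k = _
  ring

theorem ell : TEll := by
  intro δ C hC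
  have hc1 : 1 ≤ cc δ := by
    have h1 := cc_sq δ
    have h2 := cc_pos δ
    nlinarith [sq_nonneg δ]
  set K : ℝ := C + cc δ with hK
  have hK1 : 1 ≤ K := by linarith
  refine ⟨32 * K, by linarith, ?_⟩
  intro p u k U hS hy hz hx huz huy hux
  have hU : 0 ≤ U := (abs_nonneg _).trans huz
  have ht : ∀ i : ℕ, |tt p i| ≤ K * (1 + i) := by
    intro i
    refine (t_bound hS hy C hz i).trans ?_
    rw [hK]
    have : (0 : ℝ) ≤ i := Nat.cast_nonneg i
    nlinarith [mul_nonneg hC this]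
  have hy2 : p.y ^ 2 ≤ 1 := by
    rw [← sq_abs]
    nlinarith [abs_nonneg p.y]
  have hyb := abs_le.1 hy
  -- the seminorm
  have hN : ∀ i : ℕ, ss p u i ^ 2 + ss p u (i + 1) ^ 2 - 2 * p.y * ss p u i * ss p u (i + 1)
      ≤ (4 * K * (1 + i) ^ 2 * U) ^ 2 := by
    intro i
    induction i with
    | zero =>
      have h0 : ss p u 0 = u.z := rfl
      have h1 : ss p u 1 = u.x := rfl
      rw [show 0 + 1 = 1 from rfl, h0, h1]
      have h2 : u.z ^ 2 ≤ U ^ 2 := sq_le_sq' (by linarith [(abs_le.1 huz).1]) (abs_le.1 huz).2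
      have h3 : u.x ^ 2 ≤ U ^ 2 := sq_le_sq' (by linarith [(abs_le.1 hux).1]) (abs_le.1 hux).2
      have h4 : -(2 * p.y * u.z * u.x) ≤ 2 * U ^ 2 := by
        have h5 : |2 * p.y * u.z * u.x| ≤ 2 * U ^ 2 := by
          rw [abs_mul, abs_mul, abs_mul, abs_two]
          have h6 : |p.y| * |u.z| ≤ 1 * U := mul_le_mul hy huz (abs_nonneg _) zero_le_one
          have h7 : |p.y| * |u.z| * |u.x| ≤ 1 * U * U :=
            mul_le_mul h6 hux (abs_nonneg _) (by positivity)
          nlinarith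
        linarith [(abs_le.1 h5).1]
      push_cast
      have h8 : U ≤ K * U := by nlinarith
      have h9 : U ^ 2 ≤ (K * U) ^ 2 := pow_le_pow_left₀ hU h8 2
      nlinarith
    | succ i ih =>
      set a := ss p u i
      set b := ss p u (i + 1)
      set B : ℝ := 4 * K * (1 + (i : ℝ)) ^ 2 * U with hB
      have hB0 : 0 ≤ B := by positivity
      set f : ℝ := 2 * tt p (i + 1) * u.y with hf
      have hr : ss p u (i + 1 + 1) = 2 * p.y * b - a + f := ss_rec p u i
      have hfb : |f| ≤ 2 * K * (2 + i) * U := by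
        rw [hf, abs_mul, abs_mul, abs_two]
        have h1 := ht (i + 1)
        push_cast at h1
        have h2 : |tt p (i + 1)| * |u.y| ≤ K * (1 + (i + 1)) * U :=
          mul_le_mul h1 huy (abs_nonneg _) (by positivity)
        nlinarith
      have h1 : (p.y * b - a) ^ 2 ≤ B ^ 2 := by
        nlinarith [mul_nonneg (by linarith : (0 : ℝ) ≤ 1 - p.y ^ 2) (sq_nonneg b)]
      have h2 : |p.y * b - a| ≤ B := abs_le_of_sq_le_sq h1 hB0
      have h3 : f * (p.y * b - a) ≤ |f| * B := by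
        calc f * (p.y * b - a) ≤ |f * (p.y * b - a)| := le_abs_self _
          _ = |f| * |p.y * b - a| := abs_mul _ _
          _ ≤ |f| * B := mul_le_mul_of_nonneg_left h2 (abs_nonneg _)
      have h4 : b ^ 2 + (ss p u (i + 1 + 1)) ^ 2 - 2 * p.y * b * ss p u (i + 1 + 1)
          ≤ (B + |f|) ^ 2 := by
        rw [hr]
        have h5 : |f| ^ 2 = f ^ 2 := sq_abs f
        have e1 : b ^ 2 + (2 * p.y * b - a + f) ^ 2 - 2 * p.y * b * (2 * p.y * b - a + f)
            = (a ^ 2 + b ^ 2 - 2 * p.y * a * b) + f ^ 2 + 2 * (f * (p.y * b - a)) := by ring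
        have e2 : (B + |f|) ^ 2 = B ^ 2 + 2 * (|f| * B) + |f| ^ 2 := by ring
        rw [e1, e2]
        linarith
      refine h4.trans ?_
      apply pow_le_pow_left₀ (by positivity)
      push_cast
      have hi : (0 : ℝ) ≤ i := Nat.cast_nonneg i
      have h6 : 2 * K * (2 + i) * U + B ≤ 4 * K * (1 + (i + 1)) ^ 2 * U := by
        have hKU : 0 ≤ K * U := by positivity
        have e : 4 * K * (1 + ((i : ℝ) + 1)) ^ 2 * U - (2 * K * (2 + i) * U + B)
            = (K * U) * (8 + 6 * i) := by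
          rw [hB]
          ring
        have := mul_nonneg hKU (by linarith : (0 : ℝ) ≤ 8 + 6 * i)
        linarith
      linarith
  have hs : ∀ i : ℕ, |ss p u i| ≤ 4 * K * (1 + i) ^ 3 * U := by
    intro i
    induction i with
    | zero =>
      have h0 : ss p u 0 = u.z := rfl
      rw [h0]
      push_cast
      nlinarith
    | succ i ih =>
      have h1 := hN i
      set B : ℝ := 4 * K * (1 + (i : ℝ)) ^ 2 * U with hB
      have hB0 : 0 ≤ B := by positivity
      have h2 : (ss p u (i + 1) - p.y * ss p u i) ^ 2 ≤ B ^ 2 := by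
        nlinarith [mul_nonneg (by linarith : (0 : ℝ) ≤ 1 - p.y ^ 2) (sq_nonneg (ss p u i))]
      have h3 : |ss p u (i + 1) - p.y * ss p u i| ≤ B := abs_le_of_sq_le_sq h2 hB0
      have h4 : |ss p u (i + 1)| ≤ |ss p u (i + 1) - p.y * ss p u i| + |p.y * ss p u i| := by
        have := abs_add_le (ss p u (i + 1) - p.y * ss p u i) (p.y * ss p u i)
        rwa [sub_add_cancel] at this
      have h5 : |p.y * ss p u i| ≤ |ss p u i| := by
        rw [abs_mul]
        nlinarith [abs_nonneg (ss p u i)]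
      have hi : (0 : ℝ) ≤ i := Nat.cast_nonneg i
      have hKU : 0 ≤ K * U := by positivity
      have h6 : B + 4 * K * (1 + (i : ℝ)) ^ 3 * U ≤ 4 * K * (1 + ((i : ℝ) + 1)) ^ 3 * U := by
        have e : 4 * K * (1 + ((i : ℝ) + 1)) ^ 3 * U - (B + 4 * K * (1 + (i : ℝ)) ^ 3 * U)
            = (K * U) * (4 * ((1 + ((i : ℝ) + 1)) ^ 3 - (1 + (i : ℝ)) ^ 3 - (1 + (i : ℝ)) ^ 2)) := by
          rw [hB]
          ring
        have e2 : (0 : ℝ) ≤ (1 + ((i : ℝ) + 1)) ^ 3 - (1 + (i : ℝ)) ^ 3 - (1 + (i : ℝ)) ^ 2 := by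
          have : (1 + ((i : ℝ) + 1)) ^ 3 - (1 + (i : ℝ)) ^ 3 - (1 + (i : ℝ)) ^ 2
              = 2 * (i : ℝ) ^ 2 + 7 * i + 6 := by ring
          rw [this]
          positivity
        have := mul_nonneg hKU (mul_nonneg (by norm_num : (0 : ℝ) ≤ 4) e2)
        linarith
      push_cast
      linarith
  have hk0 : (0 : ℝ) ≤ k := Nat.cast_nonneg k
  have hKU : 0 ≤ K * U := by positivity
  have hk3 : (1 : ℝ) ≤ (1 + (k : ℝ)) ^ 3 := one_le_pow₀ (by linarith)
  refine ⟨?_, ?_, ?_⟩
  · have h1 := hs k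
    have h2 : 0 ≤ K * U * (1 + (k : ℝ)) ^ 3 := by positivity
    show |ss p u k| ≤ _
    nlinarith
  · rw [dRk_y]
    have h2 : K * U ≤ K * U * (1 + (k : ℝ)) ^ 3 := by nlinarith
    nlinarith
  · rw [dRk_x]
    have h1 := hs (k + 1)
    push_cast at h1
    have h2 : (1 + ((k : ℝ) + 1)) ^ 3 ≤ 8 * (1 + (k : ℝ)) ^ 3 := by
      have : 8 * (1 + (k : ℝ)) ^ 3 - (1 + ((k : ℝ) + 1)) ^ 3 = 7 * (k : ℝ) ^ 3 + 18 * (k : ℝ) ^ 2 + 12 * k := by
        ring
      have h3 : (0 : ℝ) ≤ 7 * (k : ℝ) ^ 3 + 18 * (k : ℝ) ^ 2 + 12 * k := by positivity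
      linarith
    nlinarith [mul_le_mul_of_nonneg_left h2 hKU]

end Pool.Agent.W216.Stu.Hyp
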